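import Pool.Agent.Helper70.MB.Goals

open MeasureTheory Set Metric
open scoped ENNReal FourierTransform Topology ContDiff
open Pool.Agent.Results.MP_91ee6f_gt

namespace Pool.Agent.Helper26.MB

open Pool.Agent.Helper70.MB

lemma exp_neg_div_le (a : ℝ) (ha : 0 < a) (k : ℕ) (t : ℝ) (ht : 0 < t) :
    Real.exp (-(a / t)) ≤ (k.factorial / a ^ k) * t ^ k := by
  have h1 : (a / t) ^ k / k.factorial ≤ Real.exp (a / t) :=
    Real.pow_div_factorial_le_exp (a / t) (by positivity) k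
  rw [Real.exp_neg, inv_le_comm₀ (Real.exp_pos _) (by positivity)]
  refine le_trans (le_of_eq ?_) h1
  rw [div_pow]
  field_simp

/-- the profile -/
noncomputable def gp (n : ℕ) (u : ℝ) : ℝ := u ^ (-((n : ℝ) + 3 / 2)) * Real.exp (-((1 / 8) / u))

lemma gp_nonneg (n : ℕ) {u : ℝ} (hu : 0 < u) : 0 ≤ gp n u := by
  unfold gp
  positivity

lemma gp_cont (n : ℕ) : ContinuousOn (gp n) (Ioi 0) := by
  unfold gp
  refine ContinuousOn.mul ?_ ?_
  · exact continuousOn_id.rpow_const fun x hx => Or.inl (ne_of_gt hx)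
  · refine Real.continuous_exp.comp_continuousOn ?_
    refine ContinuousOn.neg (ContinuousOn.div continuousOn_const continuousOn_id ?_)
    intro x hx
    exact ne_of_gt hx

lemma gp_int (n : ℕ) : IntegrableOn (gp n) (Ioi 0) := by
  have hsplit : Ioi (0 : ℝ) = Ioc 0 1 ∪ Ioi 1 := by
    rw [Ioc_union_Ioi_eq_Ioi zero_le_one]
  rw [hsplit]
  refine IntegrableOn.union ?_ ?_
  · -- bounded part
    have hc : IntegrableOn (fun _ : ℝ => ((n + 2).factorial : ℝ) / (1 / 8) ^ (n + 2)) (Ioc 0 1) := by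
      apply integrableOn_const (by simp)
    refine Integrable.mono' hc ?_ ?_
    · exact ((gp_cont n).mono (fun x hx => hx.1)).aestronglyMeasurable measurableSet_Ioc
    · filter_upwards [ae_restrict_mem measurableSet_Ioc] with u hu
      have hu0 : 0 < u := hu.1
      rw [Real.norm_eq_abs, abs_of_nonneg (gp_nonneg n hu0)]
      unfold gp
      have h1 := exp_neg_div_le (1 / 8) (by norm_num) (n + 2) u hu0
      have h2 : u ^ (-((n : ℝ) + 3 / 2)) * u ^ (n + 2) ≤ 1 := by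
        rw [← Real.rpow_natCast, ← Real.rpow_add hu0]
        refine Real.rpow_le_one hu0.le hu.2 ?_
        push_cast
        linarith
      calc u ^ (-((n : ℝ) + 3 / 2)) * Real.exp (-((1 / 8) / u))
          ≤ u ^ (-((n : ℝ) + 3 / 2)) * ((((n + 2).factorial : ℝ) / (1 / 8) ^ (n + 2)) * u ^ (n + 2)) :=
            mul_le_mul_of_nonneg_left h1 (Real.rpow_pos_of_pos hu0 _).le
        _ = (((n + 2).factorial : ℝ) / (1 / 8) ^ (n + 2)) * (u ^ (-((n : ℝ) + 3 / 2)) * u ^ (n + 2)) := by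
            ring
        _ ≤ (((n + 2).factorial : ℝ) / (1 / 8) ^ (n + 2)) * 1 :=
            mul_le_mul_of_nonneg_left h2 (by positivity)
        _ = _ := mul_one _
  · have hc : IntegrableOn (fun u : ℝ => u ^ (-((n : ℝ) + 3 / 2))) (Ioi 1) := by
      refine integrableOn_Ioi_rpow_of_lt ?_ one_pos
      have : (0 : ℝ) ≤ n := Nat.cast_nonneg n
      linarith
    refine Integrable.mono' hc ?_ ?_
    · have hsub : Ioi (1 : ℝ) ⊆ Ioi 0 := Ioi_subset_Ioi zero_le_one
      exact ((gp_cont n).mono hsub).aestronglyMeasurable measurableSet_Ioi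
    · filter_upwards [ae_restrict_mem measurableSet_Ioi] with u hu
      have hu0 : 0 < u := lt_trans one_pos hu
      rw [Real.norm_eq_abs, abs_of_nonneg (gp_nonneg n hu0)]
      unfold gp
      have : Real.exp (-((1 / 8) / u)) ≤ 1 := by
        rw [Real.exp_le_one_iff]
        have : 0 < (1 / 8) / u := by positivity
        linarith
      calc _ ≤ u ^ (-((n : ℝ) + 3 / 2)) * 1 :=
            mul_le_mul_of_nonneg_left this (Real.rpow_pos_of_pos hu0 _).le
        _ = _ := mul_one _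

/-- the constant -/
noncomputable def C0 (n : ℕ) : ℝ := ∫ u in Ioi (0 : ℝ), gp n u

lemma C0_nonneg (n : ℕ) : 0 ≤ C0 n :=
  setIntegral_nonneg measurableSet_Ioi fun _ hu => gp_nonneg n hu

/-- scaled profile -/
noncomputable def gr (n : ℕ) (r t : ℝ) : ℝ :=
  t ^ (-((n : ℝ) + 3 / 2)) * Real.exp (-(r ^ 2 / (8 * t)))

lemma gr_eq (n : ℕ) {r : ℝ} (hr : 0 < r) {t : ℝ} (ht : 0 < t) :
    gr n r t = (r ^ (2 * n + 3))⁻¹ * gp n ((r ^ 2)⁻¹ * t) := by
  unfold gr gp
  have h1 : ((r ^ 2)⁻¹ * t) ^ (-((n : ℝ) + 3 / 2)) =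
      r ^ (2 * n + 3) * t ^ (-((n : ℝ) + 3 / 2)) := by
    rw [Real.mul_rpow (by positivity) ht.le]
    congr 1
    rw [← Real.rpow_natCast r 2, ← Real.rpow_neg hr.le, ← Real.rpow_mul hr.le,
      ← Real.rpow_natCast r (2 * n + 3)]
    congr 1
    push_cast
    ring
  have h2 : (1 / 8) / ((r ^ 2)⁻¹ * t) = r ^ 2 / (8 * t) := by
    field_simp
  rw [h1, h2]
  field_simp

lemma gr_nonneg (n : ℕ) (r : ℝ) {t : ℝ} (ht : 0 < t) : 0 ≤ gr n r t := by
  unfold gr
  positivity

lemma gr_int (n : ℕ) {r : ℝ} (hr : 0 < r) : IntegrableOn (gr n r) (Ioi 0) := by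
  have h1 : IntegrableOn (fun t => gp n ((r ^ 2)⁻¹ * t)) (Ioi 0) := by
    rw [integrableOn_Ioi_comp_mul_left_iff _ _ (by positivity : 0 < (r ^ 2)⁻¹)]
    simpa using gp_int n
  have h2 : IntegrableOn (fun t => (r ^ (2 * n + 3))⁻¹ * gp n ((r ^ 2)⁻¹ * t)) (Ioi 0) :=
    h1.const_mul _
  refine h2.congr_fun ?_ measurableSet_Ioi
  intro t ht
  exact (gr_eq n hr ht).symm

lemma gr_val (n : ℕ) {r : ℝ} (hr : 0 < r) :
    ∫ t in Ioi (0 : ℝ), gr n r t = C0 n / r ^ (2 * n + 1) := by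
  rw [setIntegral_congr_fun measurableSet_Ioi (g := fun t => (r ^ (2 * n + 3))⁻¹ * gp n ((r ^ 2)⁻¹ * t))
    (fun t ht => gr_eq n hr ht)]
  rw [integral_const_mul, integral_comp_mul_left_Ioi (gp n) 0 (by positivity : 0 < (r ^ 2)⁻¹)]
  rw [mul_zero, inv_inv, smul_eq_mul]
  unfold C0
  rw [div_eq_mul_inv, pow_add, pow_add]
  field_simp

/-- the weight in `t` -/
noncomputable def wt (n : ℕ) (t : ℝ) : ℝ :=
  t ^ (-sx n - 1) * (Real.exp (-t) * (4 * Real.pi * t) ^ (-((n : ℝ) / 2)))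

lemma wt_nonneg (n : ℕ) {t : ℝ} (ht : 0 < t) : 0 ≤ wt n t := by
  unfold wt
  have := Real.pi_pos
  positivity

lemma four_pi_rpow_le (n : ℕ) {t : ℝ} (ht : 0 < t) :
    (4 * Real.pi * t) ^ (-((n : ℝ) / 2)) ≤ t ^ (-((n : ℝ) / 2)) := by
  have hpi := Real.pi_gt_three
  rw [Real.mul_rpow (by positivity) ht.le]
  have h1 : (4 * Real.pi) ^ (-((n : ℝ) / 2)) ≤ 1 := by
    refine Real.rpow_le_one_of_one_le_of_nonpos (by linarith) ?_
    have : (0 : ℝ) ≤ n := Nat.cast_nonneg n
    linarith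
  calc _ ≤ 1 * t ^ (-((n : ℝ) / 2)) :=
        mul_le_mul_of_nonneg_right h1 (Real.rpow_pos_of_pos ht _).le
    _ = _ := one_mul _

lemma wt_mul_le (n : ℕ) (r : ℝ) {t : ℝ} (ht : 0 < t) :
    wt n t * Real.exp (-(r ^ 2 / (4 * t))) ≤ Real.exp (-(r / 2)) * gr n r t := by
  unfold wt gr
  have h1 := four_pi_rpow_le n ht
  have h2 : t ^ (-sx n - 1) * t ^ (-((n : ℝ) / 2)) = t ^ (-((n : ℝ) + 3 / 2)) := by
    rw [← Real.rpow_add ht]
    congr 1
    unfold sx
    ring
  have h3 : Real.exp (-t) * Real.exp (-(r ^ 2 / (4 * t))) ≤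
      Real.exp (-(r / 2)) * Real.exp (-(r ^ 2 / (8 * t))) := by
    rw [← Real.exp_add, ← Real.exp_add, Real.exp_le_exp]
    have e1 : r ^ 2 / (4 * t) = 2 * (r ^ 2 / (8 * t)) := by
      field_simp
      ring
    have e2 : r / 2 ≤ t + r ^ 2 / (8 * t) := by
      have : r / 2 - t ≤ r ^ 2 / (8 * t) := by
        rw [le_div_iff₀ (by positivity)]
        nlinarith [sq_nonneg (r - 2 * t), sq_nonneg t]
      linarith
    rw [e1]
    linarith
  calc t ^ (-sx n - 1) * (Real.exp (-t) * (4 * Real.pi * t) ^ (-((n : ℝ) / 2))) *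
        Real.exp (-(r ^ 2 / (4 * t)))
      = (4 * Real.pi * t) ^ (-((n : ℝ) / 2)) * (t ^ (-sx n - 1) *
        (Real.exp (-t) * Real.exp (-(r ^ 2 / (4 * t))))) := by ring
    _ ≤ t ^ (-((n : ℝ) / 2)) * (t ^ (-sx n - 1) *
        (Real.exp (-(r / 2)) * Real.exp (-(r ^ 2 / (8 * t))))) := by
        refine mul_le_mul h1 ?_ (by positivity) (Real.rpow_pos_of_pos ht _).le
        exact mul_le_mul_of_nonneg_left h3 (Real.rpow_pos_of_pos ht _).le
    _ = (t ^ (-sx n - 1) * t ^ (-((n : ℝ) / 2))) *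
        (Real.exp (-(r / 2)) * Real.exp (-(r ^ 2 / (8 * t)))) := by ring
    _ = _ := by rw [h2]; ring

/-- the product -/
noncomputable def ff {n : ℕ} (h v : En n → ℝ) (ξ : En n) : ℝ :=
  ((starRingEnd ℂ) (hat h ξ) * hat v ξ).re

lemma ff_cont {n : ℕ} {h v : En n → ℝ} (hh : Integrable h) (hv : Integrable v) :
    Continuous (ff h v) := by
  unfold ff
  have h1 := continuous_hat hh
  have h2 := continuous_hat hv
  exact Complex.continuous_re.comp ((Complex.continuous_conj.comp h1).mul h2)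

lemma ff_abs_le {n : ℕ} (h v : En n → ℝ) (ξ : En n) :
    |ff h v ξ| ≤ ‖hat h ξ‖ ^ 2 + ‖hat v ξ‖ ^ 2 := by
  unfold ff
  refine (Complex.abs_re_le_norm _).trans ?_
  rw [norm_mul, RCLike.norm_conj]
  nlinarith [sq_nonneg (‖hat h ξ‖ - ‖hat v ξ‖), sq_nonneg (‖hat h ξ‖), sq_nonneg (‖hat v ξ‖)]

lemma ff_int {n : ℕ} {h v : En n → ℝ} (hh : Ad h) (hv : Ad v) :
    Integrable (fun ξ : En n => br ξ ^ sx n * ff h v ξ) := by
  refine (hh.2.2.add hv.2.2).mono' ?_ (Filter.Eventually.of_forall fun ξ => ?_)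
  · exact ((continuous_br_rpow _).mul (ff_cont hh.2.1 hv.2.1)).aestronglyMeasurable
  · rw [Real.norm_eq_abs, abs_mul, abs_of_pos (br_rpow_pos ξ _)]
    simp only [Pi.add_apply]
    calc br ξ ^ sx n * |ff h v ξ| ≤ br ξ ^ sx n * (‖hat h ξ‖ ^ 2 + ‖hat v ξ‖ ^ 2) :=
          mul_le_mul_of_nonneg_left (ff_abs_le h v ξ) (br_rpow_pos ξ _).le
      _ = _ := by ring

/-- the double integrand -/
noncomputable def BB {n : ℕ} (h v : En n → ℝ) (t : ℝ) (p : En n × En n) : ℝ :=
  Real.exp (-(‖p.2 - p.1‖ ^ 2 / (4 * t))) * (|h p.1| * |v p.2|)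

lemma hv_int {n : ℕ} {h v : En n → ℝ} (hh : Integrable h) (hv : Integrable v) :
    Integrable (fun p : En n × En n => |h p.1| * |v p.2|)
      ((volume : Measure (En n)).prod volume) := by
  simpa using hh.abs.mul_prod hv.abs

lemma hv_int' {n : ℕ} {h v : En n → ℝ} (hh : Integrable h) (hv : Integrable v) :
    Integrable (fun p : En n × En n => h p.1 * v p.2)
      ((volume : Measure (En n)).prod volume) := by
  simpa using hh.mul_prod hv

lemma expo_le_one {n : ℕ} {t : ℝ} (ht : 0 < t) (p : En n × En n) :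
    Real.exp (-(‖p.2 - p.1‖ ^ 2 / (4 * t))) ≤ 1 := by
  rw [Real.exp_le_one_iff]
  have : 0 ≤ ‖p.2 - p.1‖ ^ 2 / (4 * t) := by positivity
  linarith

lemma BB_nonneg {n : ℕ} (h v : En n → ℝ) (t : ℝ) (p : En n × En n) : 0 ≤ BB h v t p := by
  unfold BB
  positivity

lemma expo_cont {n : ℕ} (t : ℝ) :
    Continuous fun p : En n × En n => Real.exp (-(‖p.2 - p.1‖ ^ 2 / (4 * t))) := by
  fun_prop

lemma BB_int {n : ℕ} {h v : En n → ℝ} (hh : Integrable h) (hv : Integrable v) {t : ℝ}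
    (ht : 0 < t) : Integrable (BB h v t) ((volume : Measure (En n)).prod volume) := by
  unfold BB
  refine (hv_int hh hv).bdd_mul (c := 1) ?_ ?_
  · exact (expo_cont t).aestronglyMeasurable
  · refine Filter.Eventually.of_forall fun p => ?_
    rw [Real.norm_eq_abs, abs_of_pos (Real.exp_pos _)]
    exact expo_le_one ht p

lemma F_le (hHEAT : HEAT) {n : ℕ} (hn : 1 ≤ n) {h v : En n → ℝ} (hh : Integrable h)
    (hv : Integrable v) {t : ℝ} (ht : 0 < t) :
    |∫ ξ : En n, Real.exp (-(t * br ξ)) * ff h v ξ| ≤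
      Real.exp (-t) * (4 * Real.pi * t) ^ (-((n : ℝ) / 2)) *
        ∫ p, BB h v t p ∂((volume : Measure (En n)).prod volume) := by
  have hpi := Real.pi_pos
  have h1 := hHEAT n hn h v hh hv t ht
  unfold ff
  rw [h1, abs_mul, abs_of_nonneg (by positivity :
    0 ≤ Real.exp (-t) * (4 * Real.pi * t) ^ (-((n : ℝ) / 2)))]
  refine mul_le_mul_of_nonneg_left ?_ (by positivity)
  have hint : Integrable (Function.uncurry fun (y x : En n) =>
      Real.exp (-(‖x - y‖ ^ 2 / (4 * t))) * (h y * v x))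
      ((volume : Measure (En n)).prod volume) := by
    refine (hv_int' hh hv).bdd_mul (c := 1) ?_ ?_
    · exact (expo_cont t).aestronglyMeasurable
    · refine Filter.Eventually.of_forall fun p => ?_
      rw [Real.norm_eq_abs, abs_of_pos (Real.exp_pos _)]
      exact expo_le_one ht p
  rw [integral_integral hint]
  refine abs_integral_le_integral_abs.trans (le_of_eq ?_)
  refine integral_congr_ae (Filter.Eventually.of_forall fun p => ?_)
  unfold BB
  simp only [abs_mul, abs_of_pos (Real.exp_pos _)]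

lemma BB_le {n : ℕ} {h v : En n → ℝ} {δ : ℝ} (hδ : 0 < δ)
    (hsep : ∀ x y : En n, h y ≠ 0 → v x ≠ 0 → δ ≤ ‖x - y‖) {t : ℝ} (ht : 0 < t)
    (p : En n × En n) :
    BB h v t p ≤ Real.exp (-((δ ^ 2 / 4) / t)) * (|h p.1| * |v p.2|) := by
  unfold BB
  by_cases h1 : h p.1 = 0
  · simp [h1]
  by_cases h2 : v p.2 = 0
  · simp [h2]
  have h3 := hsep p.2 p.1 h1 h2
  refine mul_le_mul_of_nonneg_right ?_ (by positivity)
  rw [Real.exp_le_exp]
  have : (δ ^ 2 / 4) / t ≤ ‖p.2 - p.1‖ ^ 2 / (4 * t) := by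
    rw [div_div]
    refine div_le_div_of_nonneg_right ?_ (by positivity)
    exact pow_le_pow_left₀ hδ.le h3 2
  linarith

lemma moments (hHEAT : HEAT) (hMOMV : MOMV) {n : ℕ} (hn : 1 ≤ n) {h v : En n → ℝ} (hh : Ad h)
    (hv : Ad v) {δ : ℝ} (hδ : 0 < δ)
    (hsep : ∀ x y : En n, h y ≠ 0 → v x ≠ 0 → δ ≤ ‖x - y‖) (j : ℕ) (hj : (j : ℝ) ≤ sx n) :
    ∫ ξ : En n, br ξ ^ j * ff h v ξ = 0 := by
  refine hMOMV n hn (ff h v) (ff_cont hh.2.1 hv.2.1).measurable (ff_int hh hv) ?_ j hj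
  set M : ℝ := ∫ p : En n × En n, |h p.1| * |v p.2| ∂((volume : Measure (En n)).prod volume) with hM
  have hM0 : 0 ≤ M := integral_nonneg fun p => by positivity
  refine ⟨((n + 2).factorial / (δ ^ 2 / 4) ^ (n + 2)) * M, fun t ht ht1 => ?_⟩
  refine (F_le hHEAT hn hh.2.1 hv.2.1 ht).trans ?_
  have h1 : ∫ p, BB h v t p ∂((volume : Measure (En n)).prod volume) ≤
      Real.exp (-((δ ^ 2 / 4) / t)) * M := by
    rw [hM, ← integral_const_mul]
    exact integral_mono (BB_int hh.2.1 hv.2.1 ht) ((hv_int hh.2.1 hv.2.1).const_mul _)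
      (BB_le hδ hsep ht)
  have h2 := exp_neg_div_le (δ ^ 2 / 4) (by positivity) (n + 2) t ht
  have h3 := four_pi_rpow_le n ht
  have h4 : Real.exp (-t) ≤ 1 := by
    rw [Real.exp_le_one_iff]
    linarith
  have hpi := Real.pi_pos
  have h5 : Real.exp (-t) * (4 * Real.pi * t) ^ (-((n : ℝ) / 2)) ≤ 1 * t ^ (-((n : ℝ) / 2)) :=
    mul_le_mul h4 h3 (by positivity) zero_le_one
  have h6 : t ^ (-((n : ℝ) / 2)) * t ^ (n + 2) ≤ t ^ (sx n + 1) := by
    rw [← Real.rpow_natCast, ← Real.rpow_add ht]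
    refine Real.rpow_le_rpow_of_exponent_ge ht ht1 ?_
    unfold sx
    push_cast
    linarith
  calc Real.exp (-t) * (4 * Real.pi * t) ^ (-((n : ℝ) / 2)) *
        ∫ p, BB h v t p ∂((volume : Measure (En n)).prod volume)
      ≤ (1 * t ^ (-((n : ℝ) / 2))) * (Real.exp (-((δ ^ 2 / 4) / t)) * M) := by
        refine mul_le_mul h5 h1 (integral_nonneg fun p => BB_nonneg _ _ _ _) ?_
        positivity
    _ ≤ (1 * t ^ (-((n : ℝ) / 2))) * ((((n + 2).factorial / (δ ^ 2 / 4) ^ (n + 2)) * t ^ (n + 2)) * M) := by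
        refine mul_le_mul_of_nonneg_left ?_ (by positivity)
        exact mul_le_mul_of_nonneg_right h2 hM0
    _ = ((n + 2).factorial / (δ ^ 2 / 4) ^ (n + 2)) * M * (t ^ (-((n : ℝ) / 2)) * t ^ (n + 2)) := by
        ring
    _ ≤ ((n + 2).factorial / (δ ^ 2 / 4) ^ (n + 2)) * M * t ^ (sx n + 1) :=
        mul_le_mul_of_nonneg_left h6 (by positivity)

lemma kap_meas {n : ℕ} : Measurable (kap : En n → ℝ) := by
  unfold kap
  refine Measurable.div ?_ ?_
  · exact (by fun_prop : Continuous fun z : En n => Real.exp (-(‖z‖ / 2))).measurable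
  · exact (by fun_prop : Continuous fun z : En n => ‖z‖ ^ (2 * n + 1)).measurable

/-- the kernel integrand -/
noncomputable def Kf {n : ℕ} (h v : En n → ℝ) (p : En n × En n) : ℝ :=
  kap (p.2 - p.1) * (|h p.1| * |v p.2|)

lemma Kf_nonneg {n : ℕ} (h v : En n → ℝ) (p : En n × En n) : 0 ≤ Kf h v p :=
  mul_nonneg (kap_nonneg _) (by positivity)

lemma Kf_int {n : ℕ} {h v : En n → ℝ} (hh : Integrable h) (hv : Integrable v) {δ : ℝ}
    (hδ : 0 < δ) (hsep : ∀ x y : En n, h y ≠ 0 → v x ≠ 0 → δ ≤ ‖x - y‖) :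
    Integrable (Kf h v) ((volume : Measure (En n)).prod volume) := by
  refine ((hv_int hh hv).const_mul (1 / δ ^ (2 * n + 1))).mono' ?_
    (Filter.Eventually.of_forall fun p => ?_)
  · unfold Kf
    exact ((kap_meas.comp (measurable_snd.sub measurable_fst)).aestronglyMeasurable).mul
      (hv_int hh hv).aestronglyMeasurable
  · rw [Real.norm_eq_abs, abs_of_nonneg (Kf_nonneg h v p)]
    unfold Kf
    by_cases h1 : h p.1 = 0
    · simp [h1]
    by_cases h2 : v p.2 = 0
    · simp [h2]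
    have h3 := hsep p.2 p.1 h1 h2
    refine mul_le_mul_of_nonneg_right ?_ (by positivity)
    unfold kap
    refine div_le_div₀ zero_le_one ?_ (by positivity) (pow_le_pow_left₀ hδ.le h3 _)
    rw [Real.exp_le_one_iff]
    have : 0 ≤ ‖p.2 - p.1‖ := norm_nonneg _
    linarith

lemma wtBB_meas {n : ℕ} {h v : En n → ℝ} (hh : Continuous h) (hv : Continuous v) :
    Measurable fun q : ℝ × (En n × En n) => wt n q.1 * BB h v q.1 q.2 := by
  unfold wt BB
  have m1 : Measurable fun q : ℝ × (En n × En n) => q.1 := measurable_fst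
  have m2 : Measurable fun q : ℝ × (En n × En n) => ‖q.2.2 - q.2.1‖ ^ 2 :=
    (by fun_prop : Continuous fun q : ℝ × (En n × En n) => ‖q.2.2 - q.2.1‖ ^ 2).measurable
  have m3 : Measurable fun q : ℝ × (En n × En n) => |h q.2.1| * |v q.2.2| :=
    (by fun_prop : Continuous fun q : ℝ × (En n × En n) => |h q.2.1| * |v q.2.2|).measurable
  refine Measurable.mul ?_ ?_
  · refine (m1.pow_const _).mul (Measurable.mul ?_ ?_)
    · exact Real.measurable_exp.comp m1.neg
    · exact (m1.const_mul _).pow_const _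
  · refine Measurable.mul ?_ m3
    exact Real.measurable_exp.comp (m2.div (m1.const_mul 4)).neg

lemma inner_le {n : ℕ} {h v : En n → ℝ} {δ : ℝ} (hδ : 0 < δ)
    (hsep : ∀ x y : En n, h y ≠ 0 → v x ≠ 0 → δ ≤ ‖x - y‖) (p : En n × En n) :
    ∫⁻ t in Ioi (0 : ℝ), ENNReal.ofReal (wt n t * BB h v t p) ≤
      ENNReal.ofReal (C0 n * Kf h v p) := by
  by_cases h1 : h p.1 = 0
  · simp [BB, h1]
  by_cases h2 : v p.2 = 0
  · simp [BB, h2]
  have h3 := hsep p.2 p.1 h1 h2
  have hr : 0 < ‖p.2 - p.1‖ := hδ.trans_le h3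
  set r := ‖p.2 - p.1‖ with hrdef
  set A : ℝ := Real.exp (-(r / 2)) * (|h p.1| * |v p.2|) with hA
  have hA0 : 0 ≤ A := by positivity
  have hle : ∫⁻ t in Ioi (0 : ℝ), ENNReal.ofReal (wt n t * BB h v t p) ≤
      ∫⁻ t in Ioi (0 : ℝ), ENNReal.ofReal (A * gr n r t) := by
    refine setLIntegral_mono' measurableSet_Ioi fun t ht => ?_
    refine ENNReal.ofReal_le_ofReal ?_
    have ht0 : 0 < t := ht
    have := wt_mul_le n r ht0
    calc wt n t * BB h v t p = (wt n t * Real.exp (-(r ^ 2 / (4 * t)))) * (|h p.1| * |v p.2|) := by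
          unfold BB
          rw [← hrdef]
          ring
      _ ≤ (Real.exp (-(r / 2)) * gr n r t) * (|h p.1| * |v p.2|) :=
          mul_le_mul_of_nonneg_right this (by positivity)
      _ = A * gr n r t := by rw [hA]; ring
  refine hle.trans (le_of_eq ?_)
  rw [← ofReal_integral_eq_lintegral_ofReal ((gr_int n hr).const_mul A)
    (by
      filter_upwards [ae_restrict_mem measurableSet_Ioi] with t ht
      exact mul_nonneg hA0 (gr_nonneg n r ht))]
  congr 1
  rw [integral_const_mul, gr_val n hr, hA]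
  unfold Kf kap
  rw [← hrdef]
  field_simp

lemma key (hHEAT : HEAT) {n : ℕ} (hn : 1 ≤ n) {h v : En n → ℝ} (hh : Ad h) (hv : Ad v)
    {δ : ℝ} (hδ : 0 < δ) (hsep : ∀ x y : En n, h y ≠ 0 → v x ≠ 0 → δ ≤ ‖x - y‖) :
    |∫ t in Ioi (0 : ℝ), t ^ (-sx n - 1) * ∫ ξ : En n, Real.exp (-(t * br ξ)) * ff h v ξ| ≤
      C0 n * ∫ y, |h y| * ∫ x, kap (x - y) * |v x| := by
  have hK := Kf_int hh.2.1 hv.2.1 hδ hsep
  have hRHS : ∫ y, |h y| * ∫ x, kap (x - y) * |v x| =
      ∫ p, Kf h v p ∂((volume : Measure (En n)).prod volume) := by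
    have hK' : Integrable (Function.uncurry fun (y x : En n) => kap (x - y) * (|h y| * |v x|))
      ((volume : Measure (En n)).prod volume) := hK
    have := integral_integral hK'
    rw [show (∫ p, Kf h v p ∂((volume : Measure (En n)).prod volume)) =
      ∫ z : En n × En n, kap (z.2 - z.1) * (|h z.1| * |v z.2|)
        ∂((volume : Measure (En n)).prod volume) from rfl, ← this]
    refine integral_congr_ae (Filter.Eventually.of_forall fun y => ?_)
    simp only
    rw [← integral_const_mul]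
    refine integral_congr_ae (Filter.Eventually.of_forall fun x => ?_)
    simp only
    ring
  rw [hRHS]
  have hKnn : 0 ≤ ∫ p, Kf h v p ∂((volume : Measure (En n)).prod volume) :=
    integral_nonneg fun p => Kf_nonneg h v p
  rw [← Real.norm_eq_abs]
  refine (norm_integral_le_lintegral_norm _).trans ?_
  have hmain : ∫⁻ t in Ioi (0 : ℝ), ENNReal.ofReal
      ‖t ^ (-sx n - 1) * ∫ ξ : En n, Real.exp (-(t * br ξ)) * ff h v ξ‖ ≤
      ENNReal.ofReal (C0 n * ∫ p, Kf h v p ∂((volume : Measure (En n)).prod volume)) := by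
    calc ∫⁻ t in Ioi (0 : ℝ), ENNReal.ofReal
          ‖t ^ (-sx n - 1) * ∫ ξ : En n, Real.exp (-(t * br ξ)) * ff h v ξ‖
        ≤ ∫⁻ t in Ioi (0 : ℝ), ∫⁻ p, ENNReal.ofReal (wt n t * BB h v t p)
            ∂((volume : Measure (En n)).prod volume) := by
          refine setLIntegral_mono' measurableSet_Ioi fun t ht => ?_
          have ht0 : 0 < t := ht
          rw [← ofReal_integral_eq_lintegral_ofReal ((BB_int hh.2.1 hv.2.1 ht0).const_mul _)
            (Filter.Eventually.of_forall fun p =>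
              mul_nonneg (wt_nonneg n ht0) (BB_nonneg h v t p))]
          refine ENNReal.ofReal_le_ofReal ?_
          rw [integral_const_mul, Real.norm_eq_abs, abs_mul,
            abs_of_pos (Real.rpow_pos_of_pos ht0 _)]
          unfold wt
          rw [mul_assoc (t ^ (-sx n - 1))]
          exact mul_le_mul_of_nonneg_left (F_le hHEAT hn hh.2.1 hv.2.1 ht0)
            (Real.rpow_pos_of_pos ht0 _).le
      _ = ∫⁻ p, (∫⁻ t in Ioi (0 : ℝ), ENNReal.ofReal (wt n t * BB h v t p))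
            ∂((volume : Measure (En n)).prod volume) := by
          refine lintegral_lintegral_swap ?_
          exact (ENNReal.measurable_ofReal.comp (wtBB_meas hh.1 hv.1)).aemeasurable
      _ ≤ ∫⁻ p, ENNReal.ofReal (C0 n * Kf h v p)
            ∂((volume : Measure (En n)).prod volume) :=
          lintegral_mono fun p => inner_le hδ hsep p
      _ = ENNReal.ofReal (C0 n * ∫ p, Kf h v p ∂((volume : Measure (En n)).prod volume)) := by
          rw [← ofReal_integral_eq_lintegral_ofReal (hK.const_mul _)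
            (Filter.Eventually.of_forall fun p => mul_nonneg (C0_nonneg n) (Kf_nonneg h v p)),
            integral_const_mul]
  refine (ENNReal.toReal_mono ENNReal.ofReal_ne_top hmain).trans (le_of_eq ?_)
  exact ENNReal.toReal_ofReal (mul_nonneg (C0_nonneg n) hKnn)

lemma rhs_nonneg {n : ℕ} (h v : En n → ℝ) :
    0 ≤ ∫ y, |h y| * ∫ x, kap (x - y) * |v x| :=
  integral_nonneg fun _ => mul_nonneg (abs_nonneg _)
    (integral_nonneg fun _ => mul_nonneg (kap_nonneg _) (abs_nonneg _))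

theorem offd : HEAT → MOMV → MOMC → OFFD := by
  intro hHEAT hMOMV hMOMC n hn
  rcases Nat.even_or_odd n with he | ho
  · obtain ⟨c, hc, hcf⟩ := hMOMC n hn he
    have hc' : 0 < |c| := abs_pos.2 hc
    have hC0 := C0_nonneg n
    refine ⟨|c|⁻¹ * C0 n + 1, by positivity, fun h v hh hv δ hδ hsep => ⟨?_, fun ho => ?_⟩⟩
    · have hmom := moments hHEAT hMOMV hn hh hv hδ hsep
      have h1 := (hcf (ff h v) (ff_cont hh.2.1 hv.2.1).measurable (ff_int hh hv) hmom).2
      have h2 := key hHEAT hn hh hv hδ hsep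
      rw [← h1, abs_mul] at h2
      have hp : pair h v = ∫ ξ : En n, br ξ ^ sx n * ff h v ξ := rfl
      rw [← hp] at h2
      have hR := rhs_nonneg h v
      have h3 : |pair h v| ≤ |c|⁻¹ * (C0 n * ∫ y, |h y| * ∫ x, kap (x - y) * |v x|) := by
        rw [le_inv_mul_iff₀ hc']
        exact h2
      refine h3.trans ?_
      nlinarith
    · exact absurd he (Nat.not_even_iff_odd.2 ho)
  · have hz : ∀ h v : En n → ℝ, Ad h → Ad v → ∀ δ : ℝ, 0 < δ →
        (∀ x y : En n, h y ≠ 0 → v x ≠ 0 → δ ≤ ‖x - y‖) → pair h v = 0 := by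
      intro h v hh hv δ hδ hsep
      obtain ⟨k, hk⟩ := ho
      have hs : sx n = ((k + 1 : ℕ) : ℝ) := by
        unfold sx
        rw [hk]
        push_cast
        ring
      have := moments hHEAT hMOMV hn hh hv hδ hsep (k + 1) (le_of_eq hs.symm)
      rw [← this]
      unfold pair
      refine integral_congr_ae (Filter.Eventually.of_forall fun ξ => ?_)
      simp only
      rw [hs, Real.rpow_natCast]
      rfl
    refine ⟨1, one_pos, fun h v hh hv δ hδ hsep => ⟨?_, fun _ => hz h v hh hv δ hδ hsep⟩⟩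
    rw [hz h v hh hv δ hδ hsep, abs_zero, one_mul]
    exact rhs_nonneg h v

end Pool.Agent.Helper26.MB
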